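import Mathlib
import Pool.Agent.P8H8.FD2.B
import Pool.Agent.P8H8.FD2.C

/-!
# `∑_{k<p} C(-1/4,k)^2 / (-8)^k` modulo `p^2`, for `p = x^2 + y^2`, `x = 1 mod 4`

Proof, `p = 4n+1`, `c_k = C(2k,k)/4^k`: modulo `p^2` the sum is `∑ C(n,k) C(-n-1/2,k) (-1/8)^k`, which
is equal to `2^(-n) ∑_{k ≤ 2n} C(2n,k) c_k` (both satisfy the same recurrence of order two in `n`).  As
`c_k = (-1)^k C(2n,k)` modulo `p`, twice the last sum is `∑ (-1)^k (c_k^2 + C(2n,k)^2)` modulo `p^2`, which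
is `T + (-1)^n C(2n,n)` with `T = ∑ (-1)^k c_k^2` the sum of Question 1 modulo `p^2`, and
`(-1)^n C(2n,n) = (-4)^n T` modulo `p^2` (real part of `(1+i)^p`).  So the sum is `T (1 + (-4)^n)/2^(n+1)`,
and the last factor is determined modulo `p^2` by the quartic character of `2` (Dirichlet).
-/

set_option autoImplicit false

namespace Pool.Agent.Results.MP_fdcced_nt.QuestionTwo

open Finset

/-- the binomial coefficient `a (a-1) ⋯ (a-k+1) / k!` for rational `a` -/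
def binom (a : ℚ) (k : ℕ) : ℚ := (∏ i ∈ range k, (a - i)) / k.factorial

/-- `x ≡ y (mod p^2)` for rational numbers `x`, `y` with denominators prime to `p`:
`(x - y) / p^2` has denominator prime to `p`. -/
def CongrSq (p : ℕ) (x y : ℚ) : Prop :=
  ¬ p ∣ x.den ∧ ¬ p ∣ y.den ∧ ¬ p ∣ ((x - y) / (p : ℚ) ^ 2).den

open Pool.Agent.R439.PL Pool.Agent.P8H8.FD2

theorem congr_of_EQ {p : ℕ} [Fact p.Prime] {x y : ℚ} (h : EQ p 2 x y) : CongrSq p x y := by
  refine ⟨?_, ?_, den_of_I h.2.2⟩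
  · have := den_of_I (p := p) (k := 0) (I_zero_iff.2 h.1)
    rwa [pow_zero, div_one] at this
  · have := den_of_I (p := p) (k := 0) (I_zero_iff.2 h.2.1)
    rwa [pow_zero, div_one] at this

theorem result (p : ℕ) (hp : p.Prime) (h4 : p % 4 = 1) :
    (∃ x y : ℤ, (p : ℤ) = x ^ 2 + y ^ 2 ∧ x % 4 = 1) ∧
    ∀ x y : ℤ, (p : ℤ) = x ^ 2 + y ^ 2 → x % 4 = 1 →
      (p % 8 = 1 → 4 ∣ y ∧ CongrSq p (∑ k ∈ range p, binom (-1 / 4) k ^ 2 / (-8) ^ k)
        ((-1) ^ (y / 4) * (2 * (x : ℚ) - p / (2 * x)))) ∧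
      (p % 8 = 5 → 4 ∣ y - 2 ∧ CongrSq p (∑ k ∈ range p, binom (-1 / 4) k ^ 2 / (-8) ^ k)
        ((-1) ^ ((y - 2) / 4) * (2 * (y : ℚ) - p / (2 * y)))) := by
  haveI : Fact p.Prime := ⟨hp⟩
  obtain ⟨n, hn⟩ : ∃ n, p = 4 * n + 1 := ⟨p / 4, by omega⟩
  constructor
  · obtain ⟨a, b, h1, h2, -⟩ := Pool.Agent.R439.FD.jac p n hn
    exact ⟨-a, b, by rw [h1]; ring, by omega⟩
  · intro x y h1 h2
    constructor
    · intro h8
      obtain ⟨m, hm⟩ : ∃ m, n = 2 * m := ⟨n / 2, by omega⟩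
      obtain ⟨t, ht, e, he, hd⟩ := quart_even hm hn h1 (by omega)
      refine ⟨⟨t, ht⟩, ?_⟩
      have e1 : y / 4 = t := by omega
      have e2 : ((-1 : ℚ)) ^ (y / 4) = e := by
        rw [e1]
        rcases he with ⟨h3, h4⟩ | ⟨h3, h4⟩
        · rw [h4.neg_one_zpow, h3]; norm_num
        · rw [h4.neg_one_zpow, h3]; norm_num
      rw [e2]
      have hn2 : Even n := ⟨m, by omega⟩
      have h5 := fin_even hn hn2 (he.imp And.left And.left) hd
      have h6 := TT_x hn h1 h2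
      rw [hn2.neg_one_pow, one_mul] at h6
      exact congr_of_EQ (h5.trans ((EQ.refl (k := 2) (int_mem e)).mul h6))
    · intro h8
      obtain ⟨m, hm⟩ : ∃ m, n = 2 * m + 1 := ⟨n / 2, by omega⟩
      obtain ⟨t, ht, e, he, hd⟩ := quart_odd hm hn h1 h2
      refine ⟨⟨t, by omega⟩, ?_⟩
      have e1 : (y - 2) / 4 = t := by omega
      have e2 : ((-1 : ℚ)) ^ ((y - 2) / 4) = e := by
        rw [e1]
        rcases he with ⟨h3, h4⟩ | ⟨h3, h4⟩
        · rw [h4.neg_one_zpow, h3]; norm_num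
        · rw [h4.neg_one_zpow, h3]; norm_num
      rw [e2]
      exact congr_of_EQ (fin_odd hn ⟨m, hm⟩ h1 h2 (by omega) (he.imp And.left And.left) hd)

end Pool.Agent.Results.MP_fdcced_nt.QuestionTwo
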